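import Mathlib
import Pool.Agent.EvenGame.Final

set_option autoImplicit false

namespace Pool.Agent.Results.MP_c5aac2_co.EvenNumberGame

open Finset Pool.Agent.EvenGame

/-- The sets `A 0, A 1, ..., A n` of Player 1 are legal moves of the game `G_k`: each has exactly `k`
elements, and no number is played twice. -/
def LegalSets (k : ℕ) (A : ℕ → Finset ℕ) (n : ℕ) : Prop :=
  ∀ i ≤ n, (A i).card = k ∧ ∀ j < i, Disjoint (A j) (A i)

/-- The reply which the strategy `τ` of Player 2 gives to the set `A n`, after the sets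
`A 0, ..., A n` have been played. -/
def answer (τ : List (Finset ℕ) → ℕ) (A : ℕ → Finset ℕ) (n : ℕ) : ℕ :=
  τ (List.ofFn fun i : Fin (n + 1) => A i)

/-- A subset with exactly `10 * KK` elements, moved to the integers. -/
noncomputable def part (A : Finset ℕ) : Finset ℤ :=
  if h : 10 * KK ≤ A.card then ((Finset.exists_subset_card_eq h).choose).map Nat.castEmbedding else ∅

theorem part_card (A : Finset ℕ) (h : 10 * KK ≤ A.card) : (part A).card = 10 * KK := by
  unfold part
  rw [dif_pos h, Finset.card_map]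
  exact (Finset.exists_subset_card_eq h).choose_spec.2

theorem mem_part (A : Finset ℕ) (z : ℤ) (hz : z ∈ part A) : ∃ a ∈ A, (a : ℤ) = z := by
  unfold part at hz
  split_ifs at hz with h
  · rw [Finset.mem_map] at hz
    obtain ⟨a, ha, haz⟩ := hz
    exact ⟨a, (Finset.exists_subset_card_eq h).choose_spec.1 ha, haz⟩
  · simp at hz

/-- The state of the strategy after a history. -/
noncomputable def stateOf (l : List (Finset ℕ)) : St :=
  List.foldl (fun s A => (next s (part A)).2) St.init l

/-- The strategy. -/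
noncomputable def strat (l : List (Finset ℕ)) : ℕ :=
  (next (stateOf l.dropLast) (part (l.getLastD ∅))).1.toNat

theorem stateOf_succ (A : ℕ → Finset ℕ) (n : ℕ) :
    stateOf (List.ofFn fun i : Fin (n + 1) => A i) =
      (next (stateOf (List.ofFn fun i : Fin n => A i)) (part (A n))).2 := by
  rw [List.ofFn_succ_last]
  unfold stateOf
  rw [List.foldl_append]
  rfl

theorem answer_eq (A : ℕ → Finset ℕ) (n : ℕ) :
    answer strat A n = (next (stateOf (List.ofFn fun i : Fin n => A i)) (part (A n))).1.toNat := by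
  unfold answer strat
  rw [List.ofFn_succ_last]
  simp only [List.dropLast_concat, Fin.val_castSucc, Fin.val_last]
  congr 4
  simp [List.getLastD_eq_getLast?]

theorem state_key (k : ℕ) (hk : 10 * KK ≤ k) (A : ℕ → Finset ℕ) (n : ℕ) (hA : LegalSets k A n) :
    ∀ m ≤ n, (stateOf (List.ofFn fun i : Fin m => A i)).Good ∧
      (∀ z ∈ (stateOf (List.ofFn fun i : Fin m => A i)).U, ∃ i < m, z ∈ part (A i)) ∧
      (∀ i < m, (next (stateOf (List.ofFn fun i' : Fin i => A i')) (part (A i))).1 ∈
        (stateOf (List.ofFn fun i : Fin m => A i)).Q) := by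
  have hdis : ∀ m ≤ n, (∀ z ∈ (stateOf (List.ofFn fun i : Fin m => A i)).U, ∃ i < m, z ∈ part (A i)) →
      Disjoint (part (A m)) (stateOf (List.ofFn fun i : Fin m => A i)).U := by
    intro m hm h
    rw [Finset.disjoint_left]
    intro z hz hzU
    obtain ⟨i, hi, hzi⟩ := h z hzU
    obtain ⟨a, ha, haz⟩ := mem_part _ _ hz
    obtain ⟨b, hb, hbz⟩ := mem_part _ _ hzi
    have hab : a = b := by
      have : (a : ℤ) = b := by rw [haz, hbz]
      exact_mod_cast this
    subst hab
    exact Finset.disjoint_left.mp ((hA m hm).2 i hi) hb ha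
  intro m
  induction m with
  | zero =>
    intro _
    refine ⟨by simpa [stateOf] using init_good, ?_, ?_⟩
    · simp [stateOf, St.init]
    · intro i hi; omega
  | succ m ih =>
    intro hm
    obtain ⟨h1, h2, h3⟩ := ih (by omega)
    have hcard : (part (A m)).card = 10 * KK := part_card _ (by rw [(hA m (by omega)).1]; exact hk)
    obtain ⟨_, _, _, g4, g5, g6⟩ := next_spec _ (part (A m)) ⟨h1, hcard, hdis m (by omega) h2⟩
    rw [stateOf_succ]
    refine ⟨g4, ?_, ?_⟩
    · intro z hz
      rw [g5, mem_union] at hz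
      rcases hz with hz | hz
      · obtain ⟨i, hi, hzi⟩ := h2 z hz
        exact ⟨i, by omega, hzi⟩
      · exact ⟨m, by omega, hz⟩
    · intro i hi
      rw [g6, mem_insert]
      rcases Nat.lt_succ_iff_lt_or_eq.mp hi with h | h
      · exact Or.inr (h3 i h)
      · left; rw [h]

/-- **Player 2 wins the even number game `G_k` for every `k ≥ 2 * 10 ^ 8`**: he has a strategy `τ`,
which depends only on the sets played so far, such that against every sequence of legal sets all of
his replies are legal: even, between the minimum and the maximum of the last set, and new. -/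
theorem result (k : ℕ) (hk : 2 * 10 ^ 8 ≤ k) :
    ∃ τ : List (Finset ℕ) → ℕ, ∀ (A : ℕ → Finset ℕ) (n : ℕ), LegalSets k A n →
      Even (answer τ A n) ∧ (∃ a ∈ A n, ∃ c ∈ A n, a ≤ answer τ A n ∧ answer τ A n ≤ c) ∧
        ∀ i < n, answer τ A i ≠ answer τ A n := by
  have hk' : 10 * KK ≤ k := le_trans (by unfold KK; norm_num) hk
  refine ⟨strat, ?_⟩
  intro A n hA
  have main : ∀ m ≤ n, ∃ e : ℤ, (next (stateOf (List.ofFn fun i : Fin m => A i)) (part (A m))).1 = e ∧
      ((answer strat A m : ℕ) : ℤ) = e ∧ Even e ∧ (∃ a ∈ A m, ∃ c ∈ A m, (a : ℤ) ≤ e ∧ e ≤ (c : ℤ)) ∧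
      e ∉ (stateOf (List.ofFn fun i : Fin m => A i)).Q := by
    intro m hm
    have hA' : LegalSets k A m := fun i hi => hA i (by omega)
    obtain ⟨h1, h2, h3⟩ := state_key k hk' A m hA' m le_rfl
    have hcard : (part (A m)).card = 10 * KK := part_card _ (by rw [(hA m hm).1]; exact hk')
    have hd : Disjoint (part (A m)) (stateOf (List.ofFn fun i : Fin m => A i)).U := by
      rw [Finset.disjoint_left]
      intro z hz hzU
      obtain ⟨i, hi, hzi⟩ := h2 z hzU
      obtain ⟨a, ha, haz⟩ := mem_part _ _ hz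
      obtain ⟨b, hb, hbz⟩ := mem_part _ _ hzi
      have hab : a = b := by
        have : (a : ℤ) = b := by rw [haz, hbz]
        exact_mod_cast this
      subst hab
      exact Finset.disjoint_left.mp ((hA m hm).2 i hi) hb ha
    obtain ⟨g1, g2, ⟨a, ha, c, hc, hac, hce⟩, _, _, _⟩ := next_spec _ (part (A m)) ⟨h1, hcard, hd⟩
    obtain ⟨a', ha', haa⟩ := mem_part _ _ ha
    obtain ⟨c', hc', hcc⟩ := mem_part _ _ hc
    refine ⟨_, rfl, ?_, g1, ⟨a', ha', c', hc', by rw [haa]; exact hac, by rw [hcc]; exact hce⟩, g2⟩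
    rw [answer_eq, Int.toNat_of_nonneg]
    have : (0 : ℤ) ≤ (a' : ℤ) := by positivity
    linarith [haa ▸ hac]
  obtain ⟨e, he1, he2, he3, ⟨a, ha, c, hc, h1, h2⟩, he4⟩ := main n le_rfl
  refine ⟨?_, ⟨a, ha, c, hc, ?_, ?_⟩, ?_⟩
  · rw [← he2] at he3
    exact_mod_cast he3
  · rw [← he2] at h1
    exact_mod_cast h1
  · rw [← he2] at h2
    exact_mod_cast h2
  · intro i hi heq
    obtain ⟨e', he1', he2', _, _, _⟩ := main i (by omega)
    obtain ⟨_, _, h3⟩ := state_key k hk' A n hA n le_rfl
    have := h3 i hi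
    rw [he1', ← he2', heq, he2] at this
    exact he4 this

end Pool.Agent.Results.MP_c5aac2_co.EvenNumberGame
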